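import Mathlib

/-!
Units of the multiplier ring of a lattice in a number field.
-/

set_option autoImplicit false

namespace Pool.Agent.Zk52.OP

open Module

variable {K : Type*} [Field K] [NumberField K] {n : ℕ}

/-- `u` is a unit of norm `1` of the multiplier ring of the lattice `∑ ℤ w_j`: the matrix of the
multiplication by `u` in the basis `w` is integral of determinant `1` -/
def IsU (w : Basis (Fin n) ℚ K) (u : K) : Prop :=
  ∃ A : Matrix (Fin n) (Fin n) ℤ, A.det = 1 ∧ ∀ j, u * w j = ∑ i, (A i j : K) * w i

end Pool.Agent.Zk52.OP
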