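import Pool.Agent.Zk52.OP.Defs

set_option autoImplicit false

namespace Pool.Agent.Zk52.OP

open Module

theorem units {K : Type*} [Field K] [NumberField K] {n : ℕ} (w : Basis (Fin n) ℚ K)
    (l : (K →+* ℂ) → ℝ) (hl : ∑ τ, l τ = 0)
    (hconj : ∀ τ, l (NumberField.ComplexEmbedding.conjugate τ) = l τ) :
    ∃ R : ℝ, ∀ k : ℕ, ∃ u : K, IsU w u ∧
      ∀ τ : K →+* ℂ, |Real.log ‖τ u‖ - k * l τ| ≤ R := by
  sorry

theorem rs {K : Type*} [Field K] [NumberField K] {n : ℕ} (hn : 2 ≤ n) (w : Basis (Fin n) ℚ K)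
    (hunits : ∀ l : (K →+* ℂ) → ℝ, ∑ τ, l τ = 0 →
      (∀ τ, l (NumberField.ComplexEmbedding.conjugate τ) = l τ) →
      ∃ R : ℝ, ∀ k : ℕ, ∃ u : K, IsU w u ∧
        ∀ τ : K →+* ℂ, |Real.log ‖τ u‖ - k * l τ| ≤ R)
    (L : Fin n → Fin n → ℝ) (hL : LinearIndependent ℝ L) (σ : Fin n → (K →+* ℂ))
    (c : Fin n → ℂ) (h : ∀ i j, (L i j : ℂ) = c i * σ i (w j)) :
    ∃ A : Matrix (Fin n) (Fin n) ℤ,
      A.det = 1 ∧
      Irreducible (A.charpoly.map (Int.castRingHom ℚ)) ∧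
      (∀ z : ℂ, Polynomial.aeval z A.charpoly = 0 → z.im = 0) ∧
      ∀ i : Fin n, ∀ x : Fin n → ℝ, ∑ j, L i j * x j = 0 →
        ∑ j, L i j * ((A.map (Int.cast : ℤ → ℝ)).mulVec x) j = 0 := by
  sorry

end Pool.Agent.Zk52.OP
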